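import Pool.Agent.Helper205_Exc.FhCnt
import Pool.Agent.Helper205_Exc.FhPol

/-!
# Semistable curves whose Faltings height is large compared to the conductor

Frey's inequality for `K = ℚ` and `g = 1` says that `h_F(E) ≤ κ log N_E + c` for some `κ` and `c`. We
bound the number of the semistable curves with given torsion which violate it for a large `κ`.

Let `q = 3, 4, 4, 6` be the number of cusps of the modular curve that parametrises the curves with
full rational 2-torsion, with a rational point of order 6, with a subgroup `ℤ/2 × ℤ/4` and with a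
subgroup `ℤ/2 × ℤ/6` of rational points. The number of all the semistable curves of these types with
conductor `N ≤ X` is of the order `X ^ (2/q)`. For every `η > 0` there is a `κ₀` such that for all
`κ ≥ κ₀` and all `c` at most `C X ^ (1/q + η)` of them have `κ log N + c < h_F ≤ A (1 + log X)`, and at
most `C B ^ ((1/q + η) / κ)` of them (of any conductor) have `κ log N + c < h_F ≤ log B`. Both
exponents are half of those which follow from counting all the curves with `N ≤ X` or
`N ≤ (e⁻ᶜ B) ^ (1/κ)`.

The values of the `q` linear forms at the point attached to the curve have small radicals compared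
to the height of the point, and the Faltings height of the curve is at most a multiple of the
logarithm of this height. If one of the values is divisible by a large power `r ^ E` of a small
integer `r`, two others are proportional modulo `r ^ E`, and a count of pairs of integers with small
radicals which are proportional modulo `r ^ E` gives the bound. Otherwise they are products of powers
of boundedly many small integers, and the determinant method applies.
-/

set_option autoImplicit false

namespace Pool.Agent.Results.MP_6babc4_nt.LargeHeightByTorsion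

/-- the product of the primes dividing `Δ(W)` (the conductor if `gcd(c₄, Δ) = 1`) -/
def conductor (W : WeierstrassCurve ℤ) : ℕ := ∏ p ∈ W.Δ.natAbs.primeFactors, p

/-- `W` is the global minimal model of a semistable elliptic curve over `ℚ` -/
def Semistable (W : WeierstrassCurve ℤ) : Prop := W.Δ ≠ 0 ∧ IsCoprime W.c₄ W.Δ

/-- all 2-torsion points are rational: `4x³ + b₂x² + 2b₄x + b₆` splits over `ℚ` -/
def FullTwoTorsion (W : WeierstrassCurve ℤ) : Prop :=
  ∃ r₁ r₂ r₃ : ℚ, ∀ x : ℚ,
    4 * x ^ 3 + W.b₂ * x ^ 2 + 2 * W.b₄ * x + W.b₆ = 4 * (x - r₁) * (x - r₂) * (x - r₃)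

/-- the group of the rational points of the curve contains a subgroup isomorphic to `T` -/
def HasTorsion (T : Type) [AddCommGroup T] (W : WeierstrassCurve ℤ) : Prop :=
  ∃ f : T →+ (W.map (Int.castRingHom ℚ)).toAffine.Point, Function.Injective f

/-- the modular invariant `j(τ) = E₄(τ) ^ 3 / Δ(τ) = 1 / q + 744 + ⋯` -/
noncomputable def jInv (τ : UpperHalfPlane) : ℂ :=
  ModularForm.E₄ τ ^ 3 / ModularForm.discriminant τ

/-- the archimedean term `- log (|Δ(τ)| (Im τ) ^ 6)` of the Faltings height -/
noncomputable def arch (τ : UpperHalfPlane) : ℝ :=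
  -Real.log (‖ModularForm.discriminant τ‖ * τ.im ^ 6)

/-- `W(ℂ)` is isomorphic to `ℂ / (ℤ + ℤ τ)`: `j(τ) = c₄³ / Δ` is the invariant of `W` -/
def IsPeriod (W : WeierstrassCurve ℤ) (τ : UpperHalfPlane) : Prop :=
  jInv τ = (((W.c₄ : ℚ) ^ 3 / W.Δ : ℚ) : ℂ)

/-- The Faltings height over `ℚ` of the elliptic curve with the global minimal equation `W` (up to an
additive constant which depends on the normalisation only): `12 h_F` is the logarithm of the minimal
discriminant plus the archimedean term at a period `τ` of the curve. -/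
noncomputable def faltings (W : WeierstrassCurve ℤ) (τ : UpperHalfPlane) : ℝ :=
  (Real.log (|W.Δ| : ℤ) + arch τ) / 12

/-- the invariants `(c₄, c₆)` of the semistable elliptic curves over `ℚ` with the property `P`, with
conductor `N ≤ X` and with `κ log N + c < h_F ≤ A (1 + log X)` -/
def Large (P : WeierstrassCurve ℤ → Prop) (κ c A X : ℝ) : Set (ℤ × ℤ) :=
  {g | ∃ (W : WeierstrassCurve ℤ) (τ : UpperHalfPlane), Semistable W ∧ P W ∧ IsPeriod W τ ∧
    (conductor W : ℝ) ≤ X ∧ κ * Real.log (conductor W) + c < faltings W τ ∧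
    faltings W τ ≤ A * (1 + Real.log X) ∧ (W.c₄, W.c₆) = g}

/-- the invariants `(c₄, c₆)` of the semistable elliptic curves over `ℚ` with the property `P` and
with `κ log N + c < h_F ≤ log B` -/
def Exceptional (P : WeierstrassCurve ℤ → Prop) (κ c B : ℝ) : Set (ℤ × ℤ) :=
  {g | ∃ (W : WeierstrassCurve ℤ) (τ : UpperHalfPlane), Semistable W ∧ P W ∧ IsPeriod W τ ∧
    κ * Real.log (conductor W) + c < faltings W τ ∧ faltings W τ ≤ Real.log B ∧
    (W.c₄, W.c₆) = g}

/-- For every `η > 0` there is `κ₀` such that for all `κ ≥ κ₀` and `c` (1) for every `A` at most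
`C X ^ (1/q + η)` semistable curves with the property `P` have `N ≤ X` and
`κ log N + c < h_F ≤ A (1 + log X)`, and (2) at most `C B ^ ((1/q + η) / κ)` of them have
`κ log N + c < h_F ≤ log B`. -/
def Bounds (P : WeierstrassCurve ℤ → Prop) (q : ℕ) : Prop :=
  ∀ η : ℝ, 0 < η → ∃ κ₀ : ℝ, 0 < κ₀ ∧ ∀ κ c : ℝ, κ₀ ≤ κ →
    (∀ A : ℝ, ∃ C : ℝ, 0 < C ∧ ∀ X : ℝ, 1 ≤ X → (Large P κ c A X).Finite ∧
      ((Large P κ c A X).ncard : ℝ) ≤ C * X ^ (1 / (q : ℝ) + η)) ∧
    ∃ C : ℝ, 0 < C ∧ ∀ B : ℝ, 1 ≤ B → (Exceptional P κ c B).Finite ∧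
      ((Exceptional P κ c B).ncard : ℝ) ≤ C * B ^ ((1 / (q : ℝ) + η) / κ)

open Pool.Agent.Y680.T in
theorem bounds_of {P Q : WeierstrassCurve ℤ → Prop} {q : ℕ} (F : Fam q Q) (hq : 3 ≤ q)
    (hR : Pool.Agent.Helper205_Exc.Pol F) (h : ∀ W, Q W ↔ Semistable W ∧ P W) : Bounds P q := by
  intro η hη
  obtain ⟨κ₀, hκ₀, h1⟩ := Pool.Agent.Helper205_Exc.fam_fh F hq hR hη
  have hq0 : (0 : ℝ) < q := by exact_mod_cast (by omega : 0 < q)
  refine ⟨κ₀, hκ₀, fun κ c hκ => ⟨fun A => ?_, ?_⟩⟩
  · obtain ⟨C, hC, h1⟩ := h1 κ c hκ A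
    refine ⟨C, hC, fun X hX => ?_⟩
    have e : Large P κ c A X = Pool.Agent.Helper205_Exc.Hf Q κ c A X := by
      ext g
      constructor
      · rintro ⟨W, τ, w1, w2, w3⟩
        exact ⟨W, τ, (h W).2 ⟨w1, w2⟩, w3⟩
      · rintro ⟨W, τ, w1, w3⟩
        exact ⟨W, τ, ((h W).1 w1).1, ((h W).1 w1).2, w3⟩
    rw [e]
    exact h1 X hX
  · have hκ0 : 0 < κ := hκ₀.trans_le hκ
    obtain ⟨C, hC, h1⟩ := h1 κ c hκ κ
    obtain ⟨D, hD⟩ : ∃ D : ℝ, D = max 1 (Real.exp (-c / κ)) := ⟨_, rfl⟩
    have hD1 : 1 ≤ D := by rw [hD]; exact le_max_left _ _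
    have hD2 : Real.exp (-c / κ) ≤ D := by rw [hD]; exact le_max_right _ _
    have hD0 : 0 < D := by linarith
    refine ⟨C * D ^ (1 / (q : ℝ) + η), by positivity, fun B hB => ?_⟩
    have hB0 : 0 < B := by linarith
    obtain ⟨X, hX⟩ : ∃ X : ℝ, X = D * B ^ (1 / κ) := ⟨_, rfl⟩
    have hBk : 1 ≤ B ^ (1 / κ) := Real.one_le_rpow hB (by positivity)
    have hX1 : 1 ≤ X := by
      rw [hX]
      nlinarith
    have hlX : Real.log X = Real.log D + 1 / κ * Real.log B := by
      rw [hX, Real.log_mul hD0.ne' (by positivity), Real.log_rpow hB0]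
    have hlD : -c / κ ≤ Real.log D := by
      rw [← Real.log_exp (-c / κ)]
      exact Real.log_le_log (Real.exp_pos _) hD2
    have hlD0 : 0 ≤ Real.log D := Real.log_nonneg hD1
    obtain ⟨hf, hc⟩ := h1 X hX1
    have hsub : Exceptional P κ c B ⊆ Pool.Agent.Helper205_Exc.Hf Q κ c κ X := by
      rintro g ⟨W, τ, w1, w2, w3, w4, w5, w6⟩
      refine ⟨W, τ, (h W).2 ⟨w1, w2⟩, w3, ?_, w4, w5.trans ?_, w6⟩
      · have hN : (0 : ℝ) < conductor W := by
          exact_mod_cast Pool.Agent.Y680.T.rd_pos W
        refine (Real.log_le_log_iff hN (by linarith)).1 ?_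
        have e1 : κ * Real.log (conductor W) ≤ Real.log B - c := by linarith
        have e2 : Real.log (conductor W) ≤ (Real.log B - c) / κ := by
          rw [le_div_iff₀ hκ0]
          linarith
        have e3 : (Real.log B - c) / κ = -c / κ + 1 / κ * Real.log B := by ring
        rw [hlX]
        linarith
      · rw [hlX]
        have e1 : κ * (1 + (Real.log D + 1 / κ * Real.log B)) =
            κ * (1 + Real.log D) + Real.log B := by
          field_simp
          ring
        rw [e1]
        have : 0 ≤ κ * (1 + Real.log D) := by positivity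
        linarith
    refine ⟨hf.subset hsub, ?_⟩
    have h2 : ((Exceptional P κ c B).ncard : ℝ) ≤
        (Pool.Agent.Helper205_Exc.Hf Q κ c κ X).ncard := by
      exact_mod_cast Set.ncard_le_ncard hsub hf
    refine h2.trans (hc.trans (le_of_eq ?_))
    rw [hX, Real.mul_rpow hD0.le (by positivity), ← Real.rpow_mul hB0.le, mul_assoc]
    congr 3
    ring

/-- **Theorem.** The bounds hold for the semistable elliptic curves over `ℚ` with full rational
2-torsion (`q = 3`), for those with a rational point of order 6 and for those with a subgroup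
`ℤ/2 × ℤ/4` of rational points (`q = 4`), and for those with a subgroup `ℤ/2 × ℤ/6` of rational
points (`q = 6`): for every `η > 0` there is `κ₀` such that for all `κ ≥ κ₀` and all `c`, for every
`A` at most `C X ^ (1/q + η)` of them have conductor `N ≤ X` and Faltings height
`κ log N + c < h_F ≤ A (1 + log X)`, and at most `C B ^ ((1/q + η) / κ)` of them have
`κ log N + c < h_F ≤ log B`. -/
theorem result : Bounds FullTwoTorsion 3 ∧ Bounds (HasTorsion (ZMod 6)) 4 ∧
    Bounds (HasTorsion (ZMod 2 × ZMod 4)) 4 ∧ Bounds (HasTorsion (ZMod 2 × ZMod 6)) 6 :=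
  ⟨bounds_of Pool.Agent.Helper205_Exc.F2 (by norm_num) Pool.Agent.Helper205_Exc.pol_F2
      fun _ => Iff.rfl,
    bounds_of Pool.Agent.Y680.T.F6 (by norm_num) Pool.Agent.Helper205_Exc.pol_F6
      fun _ => Iff.rfl,
    bounds_of Pool.Agent.Y680.T.F24 (by norm_num) Pool.Agent.Helper205_Exc.pol_F24
      fun _ => Iff.rfl,
    bounds_of Pool.Agent.Y680.T.F26 (by norm_num) Pool.Agent.Helper205_Exc.pol_F26
      fun _ => Iff.rfl⟩

end Pool.Agent.Results.MP_6babc4_nt.LargeHeightByTorsion
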