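import Pool.Agent.Helper205_Exc.KfFh

/-!
# Members and twists whose Faltings height is large compared to the conductor

Frey's inequality for `K = ℚ` and `g = 1` says that `h_F(E) ≤ κ log N_E + c` for some `κ` and `c`. We
consider the one-parameter families all of whose bad fibres are multiplicative (for a quadratic
twist) and over rational points, the prime-to-6 part `N₆` of the conductor, and bound the number of
the members of the family and of the quadratic twists of the members which violate the inequality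
for a large `κ`.

If the family has even weight `2k` and `L ≥ 3` bad fibres, there are about `N ^ (2/L)` members with
`N₆ ≤ N`. For every `η > 0` there is a `κ₀` such that for `κ ≥ κ₀` and all `c` at most
`C N ^ (1/L + η)` members have `N₆ ≤ N` and `κ log N₆ + c < h ≤ A (1 + log N)`, and at most
`C B ^ ((1/L + η) / κ)` members (of any conductor) have `κ log N₆ + c < h ≤ log B`. For `L = 3` (any
weight) the same holds for all the quadratic twists of the members, of which there are about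
`N ^ (2/3)`, with `1/2` in place of `1/L`. The latter holds for all curves with full rational
2-torsion and for those with a rational cyclic subgroup of order 4. Here `h` differs from the
Faltings height by a bounded amount.

The values of the linear forms at the parameter of such a curve have small radicals compared to the
height of the parameter. If one of them is divisible by a large power `r ^ E` of a small integer `r`,
two others are proportional modulo `r ^ E`, and a count of pairs of integers with small radicals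
which are proportional modulo `r ^ E` gives the bound. Otherwise they are products of powers of
boundedly many small integers, and the determinant method applies.
-/

set_option autoImplicit false

namespace Pool.Agent.Results.MP_6babc4_nt.LargeHeightInFamilies

open Polynomial

/-- the discriminant `D = 4a³ - 27b²` of the model `y² = x³ - a x - b` -/
def Disc (a b : ℤ) : ℤ := 4 * a ^ 3 - 27 * b ^ 2

/-- the model `y² = x³ - a x - b` is an elliptic curve (`D ≠ 0`) and it is minimal: `|D|` is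
smallest among the integral models `y² = x³ - a' x - b'`, `a' = u⁴ a`, `b' = u⁶ b`, `u ∈ ℚ^×` -/
def IsMinimal (a b : ℤ) : Prop :=
  Disc a b ≠ 0 ∧ ∀ (u : ℚ) (a' b' : ℤ), u ≠ 0 → (a' : ℚ) = u ^ 4 * a → (b' : ℚ) = u ^ 6 * b →
    |Disc a b| ≤ |Disc a' b'|

/-- `N₆`, the prime-to-6 part of the conductor of a minimal model: the product over the primes
`p ≥ 5` dividing `D` of `p` (node: `p ∤ a`) or `p²` (cusp: `p ∣ a`) -/
def Cond6 (a b : ℤ) : ℕ :=
  ∏ p ∈ (Disc a b).natAbs.primeFactors.filter (fun p => 5 ≤ p), if (p : ℤ) ∣ a then p ^ 2 else p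

/-- the modular invariant `j(τ) = E₄(τ) ^ 3 / Δ(τ) = 1 / q + 744 + ⋯` -/
noncomputable def jInv (τ : UpperHalfPlane) : ℂ :=
  ModularForm.E₄ τ ^ 3 / ModularForm.discriminant τ

/-- the archimedean term `- log (|Δ(τ)| (Im τ) ^ 6)` of the Faltings height -/
noncomputable def arch (τ : UpperHalfPlane) : ℝ :=
  -Real.log (‖ModularForm.discriminant τ‖ * τ.im ^ 6)

/-- the curve `y² = x³ - a x - b` is isomorphic to `ℂ / (ℤ + ℤ τ)` over `ℂ`: `j(τ)` is its invariant
`(48 a)³ / (16 D)` -/
def IsPeriod (a b : ℤ) (τ : UpperHalfPlane) : Prop :=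
  jInv τ = ((6912 * (a : ℚ) ^ 3 / Disc a b : ℚ) : ℂ)

/-- The Faltings height over `ℚ` of the elliptic curve `y² = x³ - a x - b` (a minimal model in the
above sense, with a period `τ`) up to a bounded amount: `12 h` is the logarithm of the absolute
value `16 |D|` of the discriminant of the model plus the archimedean term. The minimal discriminant
of the curve is `16 D` divided by `1`, `2¹²`, `3¹²` or `6¹²`, so that `h` is the Faltings height plus
a number between `0` and `log 6` (and the constant of the normalisation). -/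
noncomputable def height (a b : ℤ) (τ : UpperHalfPlane) : ℝ :=
  (Real.log (|16 * Disc a b| : ℤ) + arch τ) / 12

/-- the minimal models of a class of curves with `N₆ ≤ N` and `κ log N₆ + c < h ≤ A (1 + log N)` -/
def Large (P : ℤ → ℤ → Prop) (κ c A N : ℝ) : Set (ℤ × ℤ) :=
  {q | IsMinimal q.1 q.2 ∧ P q.1 q.2 ∧ (Cond6 q.1 q.2 : ℝ) ≤ N ∧ ∃ τ, IsPeriod q.1 q.2 τ ∧
    κ * Real.log (Cond6 q.1 q.2) + c < height q.1 q.2 τ ∧
    height q.1 q.2 τ ≤ A * (1 + Real.log N)}

/-- the minimal models of a class of curves with `κ log N₆ + c < h ≤ log B` -/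
def Exceptional (P : ℤ → ℤ → Prop) (κ c B : ℝ) : Set (ℤ × ℤ) :=
  {q | IsMinimal q.1 q.2 ∧ P q.1 q.2 ∧ ∃ τ, IsPeriod q.1 q.2 τ ∧
    κ * Real.log (Cond6 q.1 q.2) + c < height q.1 q.2 τ ∧ height q.1 q.2 τ ≤ Real.log B}

/-- For every `η > 0` there is `κ₀` such that for all `κ ≥ κ₀` and `c` (1) for every `A` at most
`C N ^ (s + η)` curves have `N₆ ≤ N` and `κ log N₆ + c < h ≤ A (1 + log N)`, and (2) at most
`C B ^ ((s + η) / κ)` curves have `κ log N₆ + c < h ≤ log B`. -/
def Bounds (P : ℤ → ℤ → Prop) (s : ℝ) : Prop :=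
  ∀ η : ℝ, 0 < η → ∃ κ₀ : ℝ, 0 < κ₀ ∧ ∀ κ c : ℝ, κ₀ ≤ κ →
    (∀ A : ℝ, ∃ C : ℝ, 0 < C ∧ ∀ N : ℝ, 1 ≤ N → (Large P κ c A N).Finite ∧
      ((Large P κ c A N).ncard : ℝ) ≤ C * N ^ (s + η)) ∧
    ∃ C : ℝ, 0 < C ∧ ∀ B : ℝ, 1 ≤ B → (Exceptional P κ c B).Finite ∧
      ((Exceptional P κ c B).ncard : ℝ) ≤ C * B ^ ((s + η) / κ)

/-- a family `y² = x³ - A(t) x - B(t)` all of whose bad fibres are multiplicative (for a quadratic
twist, locally) and over rational points: `A`, `B` are coprime, of degrees at most `2κ`, `3κ` with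
an equality, and `4A³ - 27B² = c ∏ (uᵢ X + wᵢ) ^ eᵢ` for `L` pairwise not proportional forms (at
most one of them constant: the fibre at infinity), where `∑ eᵢ = 6κ` -/
structure Family (A B : ℤ[X]) (κ L : ℕ) : Prop where
  one_le : 1 ≤ κ
  degA : A.natDegree ≤ 2 * κ
  degB : B.natDegree ≤ 3 * κ
  deg : A.natDegree = 2 * κ ∨ B.natDegree = 3 * κ
  coprime : IsCoprime (A.map (Int.castRingHom ℚ)) (B.map (Int.castRingHom ℚ))
  split : ∃ (u w : Fin L → ℤ) (e : Fin L → ℕ) (c : ℤ), c ≠ 0 ∧ (∀ i, 1 ≤ e i) ∧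
    ∑ i, e i = 6 * κ ∧ (∀ i j, i ≠ j → u i * w j - u j * w i ≠ 0) ∧
    4 * A ^ 3 - 27 * B ^ 2 = C c * ∏ i, (C (u i) * X + C (w i)) ^ e i

/-- `y² = x³ - a x - b` is isomorphic to a member `y² = x³ - A(t) x - B(t)`, `t ∈ ℚ` -/
def Member (A B : ℤ[X]) (a b : ℤ) : Prop :=
  ∃ t u : ℚ, u ≠ 0 ∧ (a : ℚ) = u ^ 4 * (A.map (Int.castRingHom ℚ)).eval t ∧
    (b : ℚ) = u ^ 6 * (B.map (Int.castRingHom ℚ)).eval t

/-- `y² = x³ - a x - b` is isomorphic to a quadratic twist of a member `y² = x³ - A(t) x - B(t)`,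
`t ∈ ℚ` -/
def Twist (A B : ℤ[X]) (a b : ℤ) : Prop :=
  ∃ t δ : ℚ, δ ≠ 0 ∧ (a : ℚ) = δ ^ 2 * (A.map (Int.castRingHom ℚ)).eval t ∧
    (b : ℚ) = δ ^ 3 * (B.map (Int.castRingHom ℚ)).eval t

/-- `(r, 0)` is a point of order 2 -/
def Root (a b : ℤ) (r : ℚ) : Prop := r ^ 3 = a * r + b

/-- full rational 2-torsion `(r₁, 0), (r₂, 0), (r₃, 0)` -/
def Full2 (a b : ℤ) : Prop :=
  ∃ r₁ r₂ r₃ : ℚ, r₁ + r₂ + r₃ = 0 ∧ (a : ℚ) = -(r₁ * r₂ + r₁ * r₃ + r₂ * r₃) ∧
    (b : ℚ) = r₁ * r₂ * r₃

/-- a rational cyclic subgroup of order 4: it contains `(r, 0)`, and `x = r ± q` at its points of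
order 4 -/
def Cyc4 (a b : ℤ) : Prop := ∃ r q : ℚ, Root a b r ∧ 3 * r ^ 2 - a = q ^ 2

open Pool.Agent.Y679.Kf in
theorem rf_of {A B : ℤ[X]} {κ d : ℕ} (h : Family A B κ (d + 3)) :
    ∃ (L : Pool.Agent.TH867.QF.Fm (d + 3)) (e : Fin (d + 3) → ℕ) (c : ℤ), RF A B κ L e c := by
  obtain ⟨u, w, e, c, hc, he, hsum, hres, hdisc⟩ := h.split
  exact ⟨⟨u, w, hres⟩, e, c, h.one_le, h.degA, h.degB, h.deg, h.coprime, he, hsum, hc, hdisc⟩

/-- **Theorem.** (1) For every family of even weight `2k` with `L ≥ 3` bad fibres, multiplicative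
and rational, the bounds hold for the members with `s = 1/L`: for every `η > 0` there is `κ₀` such
that for `κ ≥ κ₀` and all `c` at most `C N ^ (1/L + η)` members have `N₆ ≤ N` and
`κ log N₆ + c < h ≤ A (1 + log N)`, and at most `C B ^ ((1/L + η) / κ)` members have
`κ log N₆ + c < h ≤ log B`. (2) For every family with three bad fibres, multiplicative and rational,
the bounds hold for all the quadratic twists of the members with `s = 1/2`. (3) In particular they
hold with `s = 1/2` for all the curves with full rational 2-torsion and for those with a rational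
cyclic subgroup of order 4. -/
theorem result :
    (∀ (A B : ℤ[X]) (k d : ℕ), Family A B (2 * k) (d + 3) →
      Bounds (Member A B) (1 / ((d : ℝ) + 3))) ∧
    (∀ (A B : ℤ[X]) (κ : ℕ), Family A B κ 3 → Bounds (Twist A B) (1 / 2)) ∧
    Bounds Full2 (1 / 2) ∧ Bounds Cyc4 (1 / 2) := by
  have hfull2 : ∀ a b : ℤ, 4 * a ^ 3 - 27 * b ^ 2 ≠ 0 → (Full2 a b ↔
      Pool.Agent.Y679.Kf.TwMem Pool.Agent.Helper205_Exc.A2 Pool.Agent.Helper205_Exc.B2 a b) :=
    fun a b h => (Pool.Agent.Helper205_Exc.tw2 h).symm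
  have hcyc4 : ∀ a b : ℤ, 4 * a ^ 3 - 27 * b ^ 2 ≠ 0 → (Cyc4 a b ↔
      Pool.Agent.Y679.Kf.TwMem Pool.Agent.Y679.Kf.A4 Pool.Agent.Y679.Kf.B4 a b) :=
    fun a b h => (Pool.Agent.Y679.Kf.tw4 h).symm
  refine ⟨fun A B k d h => ?_, fun A B κ h => ?_, ?_, ?_⟩
  · obtain ⟨L, e, c, hrf⟩ := rf_of h
    exact Pool.Agent.Helper205_Exc.bounds_fh_un hrf rfl fun _ _ _ => Iff.rfl
  · obtain ⟨L, e, c, hrf⟩ := rf_of (d := 0) h
    exact Pool.Agent.Helper205_Exc.bounds_fh_tw hrf fun _ _ _ => Iff.rfl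
  · exact Pool.Agent.Helper205_Exc.bounds_fh_tw Pool.Agent.Helper205_Exc.rf2 hfull2
  · exact Pool.Agent.Helper205_Exc.bounds_fh_tw Pool.Agent.Y679.Kf.rf4 hcyc4

end Pool.Agent.Results.MP_6babc4_nt.LargeHeightInFamilies
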